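import Pool.Agent.H20.RT.Pat

/-! Row C5 of board rt (MP_a315fd_nt). -/

set_option autoImplicit false

namespace Pool.RT

/-- **C5** -/
theorem C5_thm (hSTP : STPStmt) : C5Stmt := by
  intro a t
  have hu : wl 0 1 1 a (a + t) 0 0 1 1 =
      9 :: 8 :: (List.replicate (a + t) 5 ++ (List.replicate a 4 ++ [3, 2])) := by
    simp [wl]
  unfold Wd
  rw [hu]
  have hrev : (9 :: 8 :: (List.replicate (a + t) 5 ++ (List.replicate a 4 ++ [3, 2]))).reverse =
      2 :: 3 :: (List.replicate a 4 ++ (List.replicate (a + t) 5 ++ [8, 9])) := by
    simp
  have h := hSTP (9 :: 8 :: (List.replicate (a + t) 5 ++ (List.replicate a 4 ++ [3, 2])))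
    (1 :: 2 :: (List.replicate a 0 ++ (List.replicate t 1 ++ (List.replicate a 0 ++ [2, 2, 1]))))
    (t + 2) 3 0 0 0 0 0 0 0
    (by
      intro x hx
      simp only [List.mem_cons, List.mem_append, List.mem_replicate,
        List.mem_nil_iff, or_false] at hx
      omega)
    (by
      intro x hx
      simp only [List.mem_cons, List.mem_append, List.mem_replicate,
        List.mem_nil_iff, or_false] at hx
      omega)
    (by
      rw [hrev]
      simp only [Nat.ofDigits_cons, Nat.ofDigits_append, od_rep, List.length_replicate,
        Nat.ofDigits_nil, pow_R, R_add]
      ring)
    (by simp [List.count_cons, List.count_append, List.count_replicate]; try omega)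
    (by simp [List.count_cons, List.count_append, List.count_replicate])
    (by simp [List.count_cons, List.count_append, List.count_replicate])
    (by simp [List.count_cons, List.count_append, List.count_replicate])
    (by simp [List.count_cons, List.count_append, List.count_replicate])
    (by simp [List.count_cons, List.count_append, List.count_replicate])
    (by simp [List.count_cons, List.count_append, List.count_replicate])
    (by simp [List.count_cons, List.count_append, List.count_replicate])
    (by simp [List.count_cons, List.count_append, List.count_replicate])
  exact h

end Pool.RT
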