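import Pool.Agent.H20.RT.Stmts

/-! Row S6 of board rt (MP_a315fd_nt): the sixth step. -/

set_option autoImplicit false

namespace Pool.RT

theorem s6_rep (k d : ℕ) : 9 * Nat.ofDigits 10 (List.replicate k d) + d = d * 10 ^ k := by
  induction k with
  | zero => simp
  | succ k ih =>
    rw [List.replicate_succ, Nat.ofDigits_cons, pow_succ]
    push_cast
    nlinarith

theorem s6_num (x y A6 A5 A2 A1 : ℕ) (h6 : 9 * A6 + 6 = 6 * y) (h5 : 9 * A5 + 5 = 5 * (x * y))
    (h2 : 9 * A2 + 2 = 2 * y) (h1 : 9 * A1 + 1 = 1 * x) :
    9 + 10 * (A6 + y * (A5 + x * y * 1)) + (1 + 10 * (A5 + x * y * (A6 + y * 9))) =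
      0 + 10 * (A2 + y * (A1 + x * (A2 + y * (1 + 10 * 1)))) := by
  zify at *
  have h : (9 : ℤ) * (9 + 10 * (A6 + y * (A5 + x * y * 1)) +
      (1 + 10 * (A5 + x * y * (A6 + y * 9)))) =
      9 * (0 + 10 * (A2 + y * (A1 + x * (A2 + y * (1 + 10 * 1))))) := by
    linear_combination (10 + 10 * (x : ℤ) * y) * h6 + (10 * (y : ℤ) + 10) * h5 -
      (10 + 10 * (x : ℤ) * y) * h2 - 10 * (y : ℤ) * h1
  exact mul_left_cancel₀ (by norm_num) h

/-- **S6** -/
theorem S6_thm (h1 : STPStmt) : S6Stmt := by
  intro a b
  have hu : wl 1 0 0 0 (a + b) b 0 0 1 =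
      9 :: (List.replicate b 6 ++ (List.replicate (a + b) 5 ++ [1])) := by
    simp [wl]
  unfold Wd
  rw [hu]
  have hrev : (9 :: (List.replicate b 6 ++ (List.replicate (a + b) 5 ++ [1]))).reverse =
      1 :: (List.replicate (a + b) 5 ++ (List.replicate b 6 ++ [9])) := by
    simp
  have key := h1 (9 :: (List.replicate b 6 ++ (List.replicate (a + b) 5 ++ [1])))
    (0 :: (List.replicate b 2 ++ (List.replicate a 1 ++ (List.replicate b 2 ++ [1, 1]))))
    (a + 2) (2 * b) 0 0 0 0 0 0 0
    (by
      intro x hx
      simp only [List.mem_cons, List.mem_append, List.mem_replicate,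
        List.mem_nil_iff, or_false] at hx
      omega)
    (by
      intro x hx
      simp only [List.mem_cons, List.mem_append, List.mem_replicate,
        List.mem_nil_iff, or_false] at hx
      omega)
    (by
      rw [hrev]
      have e6 := s6_rep b 6
      have e5 := s6_rep (a + b) 5
      have e2 := s6_rep b 2
      have e1 := s6_rep a 1
      rw [pow_add] at e5
      simp only [Nat.ofDigits_cons, Nat.ofDigits_append, List.length_replicate,
        Nat.ofDigits_nil, Nat.cast_ofNat, Nat.cast_one, Nat.cast_zero, mul_zero, add_zero,
        pow_add]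
      have := s6_num _ _ _ _ _ _ e6 e5 e2 e1
      simpa using this)
    (by simp [List.count_cons, List.count_append, List.count_replicate])
    (by simp [List.count_cons, List.count_append, List.count_replicate]; omega)
    (by simp [List.count_cons, List.count_append, List.count_replicate])
    (by simp [List.count_cons, List.count_append, List.count_replicate])
    (by simp [List.count_cons, List.count_append, List.count_replicate])
    (by simp [List.count_cons, List.count_append, List.count_replicate])
    (by simp [List.count_cons, List.count_append, List.count_replicate])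
    (by simp [List.count_cons, List.count_append, List.count_replicate])
    (by simp [List.count_cons, List.count_append, List.count_replicate])
  exact key

end Pool.RT
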